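import Mathlib
import Pool.Agent.ThreeFunction.Core

/-!
# Relations represented by a point function inside an interval

A binary relation `R` on a set `X` is three-function representable if there are `f g h : X → ℝ`
with `R x y ↔ f x < g y ∧ g y < h x`.  We characterise these relations, on arbitrary (infinite)
sets, by an intrinsic condition: absence of asteroidal triples, and a countability condition on
the family of the sets `R(x) = {y | R x y}`.
-/

set_option autoImplicit false

namespace Pool.Agent.Results.MP_a721b7_an.PointInterval

/-- `Linked R c a b`: the elements `a` and `b` are joined by a finite chain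
`a = u 0, u 1, ..., u n = b` with `n ≥ 1` such that any two consecutive elements of the chain lie in
a common set `R(x) = {y | R x y}` that does not contain `c`. -/
def Linked {X : Type*} (R : X → X → Prop) (c : X) : X → X → Prop :=
  Relation.TransGen (fun u v => ∃ x, R x u ∧ R x v ∧ ¬ R x c)

/-- A binary relation `R` on a set `X` can be represented in the form
`R x y ↔ f x < g y < h x` with real-valued functions `f, g, h` if and only if
(1) there are no three elements any two of which are joined by a finite chain of sets `R(x)`
    avoiding the third one, and
(2) there is a countable set `D` of elements such that, whenever `R x y`, there are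
    `d, d'` in `D` with `y ∈ R(d) ∩ R(d') ⊆ R(x)`. -/
theorem result {X : Type*} (R : X → X → Prop) :
    (∃ f g h : X → ℝ, ∀ x y, R x y ↔ f x < g y ∧ g y < h x) ↔
      (¬ ∃ a b c : X, Linked R c a b ∧ Linked R a b c ∧ Linked R b a c) ∧
      (∃ D : Set X, D.Countable ∧
        ∀ x y, R x y → ∃ d ∈ D, ∃ d' ∈ D, R d y ∧ R d' y ∧ ∀ z, R d z → R d' z → R x z) := by
  constructor
  · rintro ⟨f, g, h, hR⟩
    refine ⟨?_, Pool.Agent.ThreeFunction.countable_of_rep hR⟩
    rintro ⟨a, b, c, habc⟩
    exact Pool.Agent.ThreeFunction.noAT_of_rep hR a b c habc
  · rintro ⟨hAT, D, hD, hDR⟩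
    obtain ⟨r, r1, r2, r3⟩ := Pool.Agent.ThreeFunction.exists_preorder (R := R)
      (fun a b c h => hAT ⟨a, b, c, h⟩)
    exact Pool.Agent.ThreeFunction.exists_rep r1 r2 r3 hD hDR

end Pool.Agent.Results.MP_a721b7_an.PointInterval
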